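import Pool.Agent.W845.HC.Base
import Pool.Agent.W845.HC.Stm

/-!
# The deterministic covering inequality (HC-COVER)
-/

set_option autoImplicit false
open scoped Classical
open Finset

namespace Pool.Agent.W351.HC

open Pool.Agent.W845.PM Pool.Agent.W845.HC

section
variable {V : Type} [Fintype V]

theorem arcs_eq (G : SimpleGraph V) (X Y : Finset V) :
    arcs G X Y = ∑ v, (univ.filter (fun w => v ∉ X ∧ w ∉ Y ∧ G.Adj v w)).card := by
  unfold arcs
  simp only [Finset.card_filter]
  rw [Fintype.sum_prod_type]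

theorem arcs_eq' (G : SimpleGraph V) (X Y : Finset V) :
    arcs G X Y = ∑ w, (univ.filter (fun v => v ∉ X ∧ w ∉ Y ∧ G.Adj v w)).card := by
  unfold arcs
  simp only [Finset.card_filter]
  rw [Fintype.sum_prod_type, Finset.sum_comm]

theorem arcs_mono {G G' : SimpleGraph V} (h : G ≤ G') (X Y : Finset V) :
    arcs G X Y ≤ arcs G' X Y := by
  unfold arcs
  refine Finset.card_le_card fun e he => ?_
  rw [Finset.mem_filter] at he ⊢
  exact ⟨he.1, he.2.1, he.2.2.1, h he.2.2.2⟩

theorem two_ec (F : SimpleGraph V) : 2 * ec F = ∑ v, dg F v := by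
  have h := F.sum_degrees_eq_twice_card_edges
  have h1 : ec F = F.edgeFinset.card := by
    unfold ec
    rw [Set.ncard_eq_toFinset_card']
    rfl
  rw [h1, ← h]
  refine Finset.sum_congr rfl fun v _ => ?_
  unfold dg
  rw [← SimpleGraph.card_neighborFinset_eq_degree]
  congr 1
  ext w
  simp

theorem forest_le (F : SimpleGraph V) (hF : ∀ v, dg F v ≤ 2) (X Y : Finset V) :
    2 * ec F ≤ 2 * X.card + 2 * Y.card + arcs F X Y := by
  have h0 : 2 * ec F = ∑ v, ∑ w, (if F.Adj v w then 1 else 0) := by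
    rw [two_ec]
    refine Finset.sum_congr rfl fun v _ => ?_
    unfold dg
    rw [Finset.card_filter]
  have h1 : ∀ v w : V, (if F.Adj v w then 1 else 0) ≤
      (if v ∈ X then (if F.Adj v w then 1 else 0) else 0) +
      (if w ∈ Y then (if F.Adj w v then 1 else 0) else 0) +
      (if v ∉ X ∧ w ∉ Y ∧ F.Adj v w then 1 else 0) := by
    intro v w
    by_cases h2 : F.Adj v w
    · have h2' := h2.symm
      by_cases h3 : v ∈ X <;> by_cases h4 : w ∈ Y <;> simp [h2, h2', h3, h4]
    · simp [h2]
  rw [h0]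
  refine (Finset.sum_le_sum fun v _ => Finset.sum_le_sum fun w _ => h1 v w).trans ?_
  simp only [Finset.sum_add_distrib]
  refine Nat.add_le_add (Nat.add_le_add ?_ ?_) ?_
  · have h2 : ∀ v, (∑ w, if v ∈ X then (if F.Adj v w then 1 else 0) else 0) =
        if v ∈ X then dg F v else 0 := by
      intro v
      by_cases h3 : v ∈ X
      · simp only [if_pos h3]
        unfold dg
        rw [Finset.card_filter]
      · simp [h3]
    simp only [h2]
    rw [Finset.sum_ite_mem, Finset.univ_inter]
    refine (Finset.sum_le_card_nsmul _ _ 2 fun v _ => hF v).trans ?_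
    rw [smul_eq_mul, mul_comm]
  · rw [Finset.sum_comm]
    have h2 : ∀ w, (∑ v, if w ∈ Y then (if F.Adj w v then 1 else 0) else 0) =
        if w ∈ Y then dg F w else 0 := by
      intro v
      by_cases h3 : v ∈ Y
      · simp only [if_pos h3]
        unfold dg
        rw [Finset.card_filter]
      · simp [h3]
    simp only [h2]
    rw [Finset.sum_ite_mem, Finset.univ_inter]
    refine (Finset.sum_le_card_nsmul _ _ 2 fun v _ => hF v).trans ?_
    rw [smul_eq_mul, mul_comm]
  · rw [arcs_eq]
    simp only [Finset.card_filter]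
    exact le_rfl

theorem sum_le1 (H : SimpleGraph V) (X Y T : Finset V) (hT : ∀ v ∈ T, v ∉ X) :
    ∑ v ∈ T, (univ.filter (fun w => H.Adj v w ∧ w ∉ Y)).card ≤ arcs H X Y := by
  rw [arcs_eq]
  refine le_trans ?_ (Finset.sum_le_sum_of_subset (Finset.subset_univ T))
  refine Finset.sum_le_sum fun v hv => Finset.card_le_card fun w hw => ?_
  rw [Finset.mem_filter] at hw ⊢
  exact ⟨Finset.mem_univ _, hT v hv, hw.2.2, hw.2.1⟩

theorem sum_le2 (H : SimpleGraph V) (X Y T : Finset V) (hT : ∀ v ∈ T, v ∉ Y) :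
    ∑ v ∈ T, (univ.filter (fun w => H.Adj v w ∧ w ∉ X)).card ≤ arcs H X Y := by
  rw [arcs_eq']
  refine le_trans ?_ (Finset.sum_le_sum_of_subset (Finset.subset_univ T))
  refine Finset.sum_le_sum fun v hv => Finset.card_le_card fun w hw => ?_
  rw [Finset.mem_filter] at hw ⊢
  exact ⟨Finset.mem_univ _, hw.2.2, hT v hv, hw.2.1.symm⟩

end

theorem cover : S_LAM → S_COVER := by
  intro hlam n d κ η H R Q hκ hη hn hd hA hB X Y
  by_contra hcon
  push Not at hcon
  have hnR : (1 : ℝ) ≤ n := by exact_mod_cast hn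
  set a := arcs ((H ⊓ Q) ⊔ R) X Y with ha
  set T : Finset (Fin n) := univ.filter (fun v => v ∉ X ∧ v ∉ Y) with hT
  have hTn : n ≤ X.card + Y.card + T.card := by
    have h1 : (univ : Finset (Fin n)) ⊆ X ∪ Y ∪ T := by
      intro v _
      rw [Finset.mem_union, Finset.mem_union, hT, Finset.mem_filter]
      by_cases h1 : v ∈ X
      · exact Or.inl (Or.inl h1)
      · by_cases h2 : v ∈ Y
        · exact Or.inl (Or.inr h2)
        · exact Or.inr ⟨Finset.mem_univ _, h1, h2⟩
    have h2 := Finset.card_le_card h1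
    rw [Finset.card_univ, Fintype.card_fin] at h2
    have h3 := Finset.card_union_le (X ∪ Y) T
    have h4 := Finset.card_union_le X Y
    omega
  have hTnR : (n : ℝ) ≤ X.card + Y.card + T.card := by exact_mod_cast hTn
  have hTle : (T.card : ℝ) ≤ n := by
    have := Finset.card_le_univ T
    rw [Fintype.card_fin] at this
    exact_mod_cast this
  have ha0 : (0 : ℝ) ≤ a := Nat.cast_nonneg _
  have hT1 : 2 * κ * n + a < 2 * T.card := by nlinarith
  have hT2 : κ * n < T.card := by nlinarith
  have hHQ : arcs (H ⊓ Q) X Y ≤ a := arcs_mono le_sup_left X Y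
  have hH : (arcs H X Y : ℝ) < κ * η / 2 * n ^ 2 := by
    by_contra h
    push Not at h
    have h1 := hB X Y h
    have h2 : (arcs (H ⊓ Q) X Y : ℝ) ≤ a := by exact_mod_cast hHQ
    have h3 : 0 < κ * n := by positivity
    nlinarith
  -- the vertex
  have hv : ∃ v ∈ T, (((univ.filter (fun w => H.Adj v w ∧ w ∉ Y)).card : ℝ) +
      ((univ.filter (fun w => H.Adj v w ∧ w ∉ X)).card : ℝ)) < η * n := by
    by_contra h
    push Not at h
    have h1 : (T.card : ℝ) * (η * n) ≤ ∑ v ∈ T, (((univ.filter (fun w => H.Adj v w ∧ w ∉ Y)).card : ℝ) +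
      ((univ.filter (fun w => H.Adj v w ∧ w ∉ X)).card : ℝ)) := by
      rw [← nsmul_eq_mul]
      exact Finset.card_nsmul_le_sum T _ _ h
    rw [Finset.sum_add_distrib] at h1
    have h2 : ∑ v ∈ T, (univ.filter (fun w => H.Adj v w ∧ w ∉ Y)).card ≤ arcs H X Y := by
      have h5 := sum_le1 H X Y T (fun v hv => (Finset.mem_filter.1 hv).2.1)
      convert h5
    have h3 : ∑ v ∈ T, (univ.filter (fun w => H.Adj v w ∧ w ∉ X)).card ≤ arcs H X Y := by
      have h5 := sum_le2 H X Y T (fun v hv => (Finset.mem_filter.1 hv).2.2)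
      convert h5
    have h2' : ∑ v ∈ T, ((univ.filter (fun w => H.Adj v w ∧ w ∉ Y)).card : ℝ) ≤ arcs H X Y := by
      exact_mod_cast h2
    have h3' : ∑ v ∈ T, ((univ.filter (fun w => H.Adj v w ∧ w ∉ X)).card : ℝ) ≤ arcs H X Y := by
      exact_mod_cast h3
    have h4 : κ * n * (η * n) ≤ T.card * (η * n) :=
      mul_le_mul_of_nonneg_right hT2.le (by positivity)
    nlinarith
  obtain ⟨v, hvT, hv⟩ := hv
  obtain ⟨e, he1, he2⟩ := hA v
  obtain ⟨F, hF1, hF2, hF3⟩ := hlam.1 (Fin (n - d)) (R.comap e)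
  set A : Finset (Fin n) := (univ.map e)ᶜ with hAdef
  have hAc : A.card = d := by
    rw [hAdef, Finset.card_compl, Finset.card_map, Finset.card_univ, Fintype.card_fin,
      Fintype.card_fin]
    omega
  have hAr : ∀ x ∈ A, x ∉ Set.range e := by
    intro x hx
    rw [hAdef, Finset.mem_compl, Finset.mem_map] at hx
    rintro ⟨y, hy⟩
    exact hx ⟨y, Finset.mem_univ _, hy⟩
  have hAY : ((A.filter (fun w => w ∉ Y)).card : ℝ) ≤ (univ.filter (fun w => H.Adj v w ∧ w ∉ Y)).card := by
    norm_cast
    refine Finset.card_le_card fun w hw => ?_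
    rw [Finset.mem_filter] at hw ⊢
    exact ⟨Finset.mem_univ _, he1 w (hAr w hw.1), hw.2⟩
  have hAX : ((A.filter (fun w => w ∉ X)).card : ℝ) ≤ (univ.filter (fun w => H.Adj v w ∧ w ∉ X)).card := by
    norm_cast
    refine Finset.card_le_card fun w hw => ?_
    rw [Finset.mem_filter] at hw ⊢
    exact ⟨Finset.mem_univ _, he1 w (hAr w hw.1), hw.2⟩
  -- preimages
  have hpre : ∀ Z : Finset (Fin n), (univ.filter (fun x => e x ∈ Z)).card +
      d ≤ Z.card + (A.filter (fun w => w ∉ Z)).card := by
    intro Z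
    have h1 : (A.filter (fun w => w ∈ Z)).card + (A.filter (fun w => w ∉ Z)).card = d := by
      rw [← hAc]
      exact Finset.card_filter_add_card_filter_not _
    have h2 : ((univ.filter (fun x => e x ∈ Z)).map e).card + (A.filter (fun w => w ∈ Z)).card ≤
        Z.card := by
      rw [← Finset.card_union_of_disjoint]
      · refine Finset.card_le_card fun x hx => ?_
        rw [Finset.mem_union] at hx
        rcases hx with hx | hx
        · rw [Finset.mem_map] at hx
          obtain ⟨y, hy, rfl⟩ := hx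
          exact (Finset.mem_filter.1 hy).2
        · exact (Finset.mem_filter.1 hx).2
      · rw [Finset.disjoint_left]
        intro x hx hx2
        rw [Finset.mem_map] at hx
        obtain ⟨y, hy, rfl⟩ := hx
        exact hAr _ (Finset.mem_filter.1 hx2).1 ⟨y, rfl⟩
    rw [Finset.card_map] at h2
    omega
  have hfor := forest_le F hF2.2 (univ.filter (fun x => e x ∈ X)) (univ.filter (fun x => e x ∈ Y))
  have harc : arcs F (univ.filter (fun x => e x ∈ X)) (univ.filter (fun x => e x ∈ Y)) ≤ a := by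
    have h1 : arcs F (univ.filter (fun x => e x ∈ X)) (univ.filter (fun x => e x ∈ Y)) ≤
        arcs R X Y := by
      unfold arcs
      refine Finset.card_le_card_of_injOn (fun p => (e p.1, e p.2)) ?_ ?_
      · rintro ⟨x, y⟩ hp
        simp only [Finset.coe_filter, Finset.mem_univ, true_and, Finset.mem_filter,
          Set.mem_setOf_eq] at hp ⊢
        exact ⟨hp.1, hp.2.1, hF1 hp.2.2⟩
      · rintro ⟨x, y⟩ _ ⟨x', y'⟩ _ h
        simp only [Prod.mk.injEq] at h ⊢
        exact ⟨e.injective h.1, e.injective h.2⟩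
    exact h1.trans (arcs_mono le_sup_right X Y)
  rw [hF3] at hfor
  have hX := hpre X
  have hY := hpre Y
  have hforR : 2 * (lam (R.comap e) : ℝ) ≤ 2 * ((univ.filter (fun x => e x ∈ X)).card : ℝ) +
      2 * ((univ.filter (fun x => e x ∈ Y)).card : ℝ) + a := by
    have h1 : 2 * lam (R.comap e) ≤ 2 * (univ.filter (fun x => e x ∈ X)).card +
      2 * (univ.filter (fun x => e x ∈ Y)).card + a := by omega
    exact_mod_cast h1
  have hXR : ((univ.filter (fun x => e x ∈ X)).card : ℝ) + d ≤
      X.card + (A.filter (fun w => w ∉ X)).card := by exact_mod_cast hX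
  have hYR : ((univ.filter (fun x => e x ∈ Y)).card : ℝ) + d ≤
      Y.card + (A.filter (fun w => w ∉ Y)).card := by exact_mod_cast hY
  have hκn : 0 < κ * n := by positivity
  linarith

end Pool.Agent.W351.HC
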